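import Pool.Agent.helper35.MR.SpecB

/-!
# EXP: expansion of the signed sum
-/

set_option autoImplicit false

open Finset

namespace Pool.Agent.helper35.MR

open Pool.Agent.RRank

section EXPsec

variable {K : Type} [Field K] {s : ℕ}

/-- quadruples of indices; the index `0` is the new point -/
abbrev EXP_Idx (s : ℕ) : Type := Fin 4 → Fin (s + 1)

/-- triples of permutations -/
abbrev EXP_Tr (s : ℕ) : Type :=
  Equiv.Perm (Fin (s + 1)) × Equiv.Perm (Fin (s + 1)) × Equiv.Perm (Fin (s + 1))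

def EXP_pp (t : EXP_Tr s) : Fin 4 → Equiv.Perm (Fin (s + 1)) := ![1, t.1, t.2.1, t.2.2]

def EXP_sg (K : Type) [Field K] (t : EXP_Tr s) : K :=
  (((Equiv.Perm.sign t.1 * Equiv.Perm.sign t.2.1 * Equiv.Perm.sign t.2.2 : ℤˣ) : ℤ) : K)

def EXP_c (t : EXP_Tr s) (l : Fin (s + 1)) : EXP_Idx s := fun α => EXP_pp t α l

def EXP_term (V : EXP_Idx s → K) (t : EXP_Tr s) : K := EXP_sg K t * ∏ l, V (EXP_c t l)

def EXP_f (t : EXP_Tr s) (α : Fin 4) : Fin (s + 1) := (EXP_pp t α).symm 0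

theorem EXP_c_zero (t : EXP_Tr s) (l : Fin (s + 1)) (α : Fin 4) : EXP_c t l α = 0 ↔ l = EXP_f t α := by
  unfold EXP_c EXP_f
  exact (Equiv.eq_symm_apply _).symm

/-- the index of the factor of a single point -/
def EXP_ins (α : Fin 4) (g : Fin 3 → Fin s) : EXP_Idx s := α.insertNth 0 (fun j => (g j).succ)

theorem EXP_ins_inj (α : Fin 4) (g g' : Fin 3 → Fin s) (h : EXP_ins α g = EXP_ins α g') : g = g' := by
  funext j
  have h1 := congrFun h (α.succAbove j)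
  unfold EXP_ins at h1
  rw [Fin.insertNth_apply_succAbove, Fin.insertNth_apply_succAbove] at h1
  exact Fin.succ_injective _ h1

theorem EXP_ins_ex (α : Fin 4) (c : EXP_Idx s) (h0 : c α = 0) (h : ∀ β, β ≠ α → c β ≠ 0) :
    ∃ g : Fin 3 → Fin s, c = EXP_ins α g := by
  refine ⟨fun j => (c (α.succAbove j)).pred (h _ (Fin.succAbove_ne α j)), ?_⟩
  funext β
  unfold EXP_ins
  rcases Fin.eq_self_or_eq_succAbove α β with hβ | ⟨j, rfl⟩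
  · rw [hβ, Fin.insertNth_apply_same, h0]
  · rw [Fin.insertNth_apply_succAbove, Fin.succ_pred]

/-- the cofactor of a single point -/
def EXP_G (α : Fin 4) (R : EXP_Tr s → Prop) [DecidablePred R] (g : Fin 3 → Fin s) (V : EXP_Idx s → K) : K :=
  ∑ t, if R t ∧ EXP_c t (EXP_f t α) = EXP_ins α g then
    EXP_sg K t * ∏ l ∈ univ.erase (EXP_f t α), V (EXP_c t l) else 0

theorem EXP_alone (α : Fin 4) (R : EXP_Tr s → Prop) [DecidablePred R]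
    (hR : ∀ t, R t → ∀ β, β ≠ α → EXP_f t β ≠ EXP_f t α) (V : EXP_Idx s → K) :
    (∑ t, if R t then EXP_term V t else 0) = ∑ g : Fin 3 → Fin s, V (EXP_ins α g) * EXP_G α R g V := by
  unfold EXP_G
  simp only [mul_sum]
  rw [sum_comm]
  refine sum_congr rfl fun t _ => ?_
  by_cases ht : R t
  · rw [if_pos ht]
    have h0 : EXP_c t (EXP_f t α) α = 0 := (EXP_c_zero t _ α).2 rfl
    obtain ⟨g, hg⟩ := EXP_ins_ex α (EXP_c t (EXP_f t α)) h0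
      (fun β hβ h => hR t ht β hβ ((EXP_c_zero t _ β).1 h).symm)
    rw [sum_eq_single g]
    · rw [if_pos ⟨ht, hg⟩, ← hg]
      unfold EXP_term
      rw [← mul_prod_erase univ (fun l => V (EXP_c t l)) (mem_univ (EXP_f t α))]
      ring
    · intro g' _ hg'
      rw [if_neg, mul_zero]
      rintro ⟨-, h⟩
      exact hg' (EXP_ins_inj α _ _ (h.symm.trans hg))
    · intro h
      exact absurd (mem_univ _) h
  · rw [if_neg ht]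
    symm
    apply sum_eq_zero
    intro g _
    rw [if_neg (fun h => ht h.1), mul_zero]

theorem EXP_G_congr (α : Fin 4) (R : EXP_Tr s → Prop) [DecidablePred R] (g : Fin 3 → Fin s)
    (V V' : EXP_Idx s → K) (h : ∀ c, c α ≠ 0 → V c = V' c) : EXP_G α R g V = EXP_G α R g V' := by
  unfold EXP_G
  refine sum_congr rfl fun t _ => ?_
  congr 2
  refine prod_congr rfl fun l hl => h _ ?_
  rw [mem_erase] at hl
  exact fun h0 => hl.1 ((EXP_c_zero t l α).1 h0)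

/-- the index of a factor with two new points -/
def EXP_two (κ₁ κ₂ : Fin 4) (p : Fin 2 → Fin s) : EXP_Idx s :=
  fun κ => if κ = κ₁ then (p 0).succ else if κ = κ₂ then (p 1).succ else 0

theorem EXP_two_inj (κ₁ κ₂ : Fin 4) (hκ : κ₁ ≠ κ₂) (p p' : Fin 2 → Fin s)
    (h : EXP_two κ₁ κ₂ p = EXP_two κ₁ κ₂ p') : p = p' := by
  have h1 := congrFun h κ₁
  have h2 := congrFun h κ₂
  unfold EXP_two at h1 h2
  rw [if_pos rfl, if_pos rfl] at h1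
  rw [if_neg hκ.symm, if_pos rfl, if_neg hκ.symm, if_pos rfl] at h2
  funext j
  fin_cases j
  · exact Fin.succ_injective _ h1
  · exact Fin.succ_injective _ h2

theorem EXP_two_ex (κ₁ κ₂ : Fin 4) (hκ : κ₁ ≠ κ₂) (c : EXP_Idx s) (h1 : c κ₁ ≠ 0) (h2 : c κ₂ ≠ 0)
    (h : ∀ κ, κ ≠ κ₁ → κ ≠ κ₂ → c κ = 0) : ∃ p : Fin 2 → Fin s, c = EXP_two κ₁ κ₂ p := by
  refine ⟨![(c κ₁).pred h1, (c κ₂).pred h2], ?_⟩
  funext κ
  unfold EXP_two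
  by_cases k1 : κ = κ₁
  · subst k1
    rw [if_pos rfl]
    simp
  · rw [if_neg k1]
    by_cases k2 : κ = κ₂
    · subst k2
      rw [if_pos rfl]
      simp
    · rw [if_neg k2, h κ k1 k2]

/-- the coefficient of a product of two factors with two new points each -/
def EXP_co (γ : Fin 4) (cA cB : (Fin 2 → Fin s) → EXP_Idx s) (R : EXP_Tr s → Prop) [DecidablePred R]
    (p q : Fin 2 → Fin s) (V : EXP_Idx s → K) : K :=
  ∑ t, if R t ∧ EXP_c t (EXP_f t 0) = cA p ∧ EXP_c t (EXP_f t γ) = cB q then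
    EXP_sg K t * ∏ l ∈ (univ.erase (EXP_f t 0)).erase (EXP_f t γ), V (EXP_c t l) else 0

theorem EXP_pair (γ : Fin 4) (cA cB : (Fin 2 → Fin s) → EXP_Idx s)
    (iA : Function.Injective cA) (iB : Function.Injective cB) (R : EXP_Tr s → Prop) [DecidablePred R]
    (hR : ∀ t, R t → EXP_f t γ ≠ EXP_f t 0 ∧ (∃ p, EXP_c t (EXP_f t 0) = cA p) ∧
      ∃ q, EXP_c t (EXP_f t γ) = cB q) (V : EXP_Idx s → K) :
    (∑ t, if R t then EXP_term V t else 0) =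
      ∑ p, ∑ q, EXP_co γ cA cB R p q V * (V (cA p) * V (cB q)) := by
  unfold EXP_co
  have e1 : ∀ p : Fin 2 → Fin s, (∑ q : Fin 2 → Fin s, (∑ t, if R t ∧ EXP_c t (EXP_f t 0) = cA p ∧
      EXP_c t (EXP_f t γ) = cB q then
      EXP_sg K t * ∏ l ∈ (univ.erase (EXP_f t 0)).erase (EXP_f t γ), V (EXP_c t l) else 0) *
      (V (cA p) * V (cB q))) = ∑ t, ∑ q : Fin 2 → Fin s, (if R t ∧ EXP_c t (EXP_f t 0) = cA p ∧
      EXP_c t (EXP_f t γ) = cB q then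
      EXP_sg K t * ∏ l ∈ (univ.erase (EXP_f t 0)).erase (EXP_f t γ), V (EXP_c t l) else 0) *
      (V (cA p) * V (cB q)) := by
    intro p
    simp only [sum_mul]
    rw [sum_comm]
  simp only [e1]
  rw [sum_comm]
  refine sum_congr rfl fun t _ => ?_
  by_cases ht : R t
  · obtain ⟨hne, ⟨p, hp⟩, ⟨q, hq⟩⟩ := hR t ht
    rw [if_pos ht, sum_eq_single p, sum_eq_single q]
    · rw [if_pos ⟨ht, hp, hq⟩, ← hp, ← hq]
      unfold EXP_term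
      rw [← mul_prod_erase univ (fun l => V (EXP_c t l)) (mem_univ (EXP_f t 0)),
        ← mul_prod_erase (univ.erase (EXP_f t 0)) (fun l => V (EXP_c t l)) (a := EXP_f t γ)
          (mem_erase.2 ⟨hne, mem_univ _⟩)]
      ring
    · intro q' _ hq'
      rw [if_neg, zero_mul]
      rintro ⟨-, -, h⟩
      exact hq' (iB (h.symm.trans hq))
    · intro h
      exact absurd (mem_univ _) h
    · intro p' _ hp'
      apply sum_eq_zero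
      intro q' _
      rw [if_neg, zero_mul]
      rintro ⟨-, h, -⟩
      exact hp' (iA (h.symm.trans hp))
    · intro h
      exact absurd (mem_univ _) h
  · rw [if_neg ht]
    symm
    apply sum_eq_zero
    intro p _
    apply sum_eq_zero
    intro q _
    rw [if_neg (fun h => ht h.1), zero_mul]

theorem EXP_co_congr (γ : Fin 4) (cA cB : (Fin 2 → Fin s) → EXP_Idx s) (R : EXP_Tr s → Prop)
    [DecidablePred R] (hR : ∀ t, R t → ∀ κ, EXP_f t κ = EXP_f t 0 ∨ EXP_f t κ = EXP_f t γ)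
    (p q : Fin 2 → Fin s) (V V' : EXP_Idx s → K) (h : ∀ c, (∀ κ, c κ ≠ 0) → V c = V' c) :
    EXP_co γ cA cB R p q V = EXP_co γ cA cB R p q V' := by
  unfold EXP_co
  refine sum_congr rfl fun t _ => ?_
  by_cases ht : R t ∧ EXP_c t (EXP_f t 0) = cA p ∧ EXP_c t (EXP_f t γ) = cB q
  · rw [if_pos ht, if_pos ht]
    congr 1
    refine prod_congr rfl fun l hl => h _ fun κ h0 => ?_
    rw [mem_erase, mem_erase] at hl
    rw [EXP_c_zero] at h0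
    rcases hR t ht.1 κ with h1 | h1
    · exact hl.2.1 (h0.trans h1)
    · exact hl.1 (h0.trans h1)
  · rw [if_neg ht, if_neg ht]

/-! ### the classes -/

def EXP_all (t : EXP_Tr s) : Prop := EXP_f t 1 = EXP_f t 0 ∧ EXP_f t 2 = EXP_f t 0 ∧ EXP_f t 3 = EXP_f t 0

instance : DecidablePred (EXP_all (s := s)) := fun _ => inferInstanceAs (Decidable (_ ∧ _))

def EXP_al (α : Fin 4) (t : EXP_Tr s) : Prop := ∀ β, β ≠ α → EXP_f t β ≠ EXP_f t α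

instance (α : Fin 4) : DecidablePred (EXP_al (s := s) α) :=
  fun t => inferInstanceAs (Decidable (∀ β, β ≠ α → EXP_f t β ≠ EXP_f t α))

def EXP_R0 (t : EXP_Tr s) : Prop := EXP_al 0 t
def EXP_R1 (t : EXP_Tr s) : Prop := EXP_al 1 t ∧ ¬ EXP_al 0 t
def EXP_R2 (t : EXP_Tr s) : Prop := EXP_al 2 t ∧ ¬ EXP_al 0 t ∧ ¬ EXP_al 1 t
def EXP_R3 (t : EXP_Tr s) : Prop := EXP_al 3 t ∧ ¬ EXP_al 0 t ∧ ¬ EXP_al 1 t ∧ ¬ EXP_al 2 t
def EXP_P (β γ δ : Fin 4) (t : EXP_Tr s) : Prop :=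
  EXP_f t β = EXP_f t 0 ∧ EXP_f t δ = EXP_f t γ ∧ EXP_f t γ ≠ EXP_f t 0

instance : DecidablePred (EXP_R0 (s := s)) := fun t => inferInstanceAs (Decidable (EXP_al 0 t))
instance : DecidablePred (EXP_R1 (s := s)) := fun _ => inferInstanceAs (Decidable (_ ∧ _))
instance : DecidablePred (EXP_R2 (s := s)) := fun _ => inferInstanceAs (Decidable (_ ∧ _))
instance : DecidablePred (EXP_R3 (s := s)) := fun _ => inferInstanceAs (Decidable (_ ∧ _))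
instance (β γ δ : Fin 4) : DecidablePred (EXP_P (s := s) β γ δ) :=
  fun _ => inferInstanceAs (Decidable (_ ∧ _))

theorem EXP_al_iff (t : EXP_Tr s) :
    (EXP_al 0 t ↔ EXP_f t 1 ≠ EXP_f t 0 ∧ EXP_f t 2 ≠ EXP_f t 0 ∧ EXP_f t 3 ≠ EXP_f t 0) ∧
    (EXP_al 1 t ↔ EXP_f t 0 ≠ EXP_f t 1 ∧ EXP_f t 2 ≠ EXP_f t 1 ∧ EXP_f t 3 ≠ EXP_f t 1) ∧
    (EXP_al 2 t ↔ EXP_f t 0 ≠ EXP_f t 2 ∧ EXP_f t 1 ≠ EXP_f t 2 ∧ EXP_f t 3 ≠ EXP_f t 2) ∧
    (EXP_al 3 t ↔ EXP_f t 0 ≠ EXP_f t 3 ∧ EXP_f t 1 ≠ EXP_f t 3 ∧ EXP_f t 2 ≠ EXP_f t 3) := by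
  unfold EXP_al
  simp [Fin.forall_fin_succ]

theorem EXP_abs (a b c d : Fin (s + 1)) (x : K) :
    x = (if (b = a ∧ c = a ∧ d = a) then x else 0) + (if (b ≠ a ∧ c ≠ a ∧ d ≠ a) then x else 0) +
      (if ((a ≠ b ∧ c ≠ b ∧ d ≠ b) ∧ ¬ (b ≠ a ∧ c ≠ a ∧ d ≠ a)) then x else 0) +
      (if ((a ≠ c ∧ b ≠ c ∧ d ≠ c) ∧ ¬ (b ≠ a ∧ c ≠ a ∧ d ≠ a) ∧ ¬ (a ≠ b ∧ c ≠ b ∧ d ≠ b)) then x else 0) +
      (if ((a ≠ d ∧ b ≠ d ∧ c ≠ d) ∧ ¬ (b ≠ a ∧ c ≠ a ∧ d ≠ a) ∧ ¬ (a ≠ b ∧ c ≠ b ∧ d ≠ b) ∧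
        ¬ (a ≠ c ∧ b ≠ c ∧ d ≠ c)) then x else 0) +
      (if (b = a ∧ d = c ∧ c ≠ a) then x else 0) + (if (c = a ∧ d = b ∧ b ≠ a) then x else 0) +
      (if (d = a ∧ c = b ∧ b ≠ a) then x else 0) := by
  rcases eq_or_ne b a with rfl | k1
  · rcases eq_or_ne c b with rfl | k2
    · rcases eq_or_ne d c with rfl | k3
      · simp
      · simp [k3, k3.symm]
    · rcases eq_or_ne d b with rfl | k3
      · simp [k2, k2.symm]
      · rcases eq_or_ne d c with rfl | k4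
        · simp [k2, k2.symm]
        · simp [k2, k2.symm, k3, k3.symm, k4, k4.symm]
  · rcases eq_or_ne c a with rfl | k2
    · rcases eq_or_ne d c with rfl | k3
      · simp [k1, k1.symm]
      · rcases eq_or_ne d b with rfl | k4
        · simp [k1, k1.symm]
        · simp [k1, k1.symm, k3, k3.symm, k4, k4.symm]
    · rcases eq_or_ne d a with rfl | k3
      · rcases eq_or_ne c b with rfl | k4
        · simp [k1, k1.symm]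
        · simp [k1, k1.symm, k2, k2.symm, k4, k4.symm]
      · simp [k1, k1.symm, k2, k2.symm, k3, k3.symm]

theorem EXP_classes (t : EXP_Tr s) (x : K) :
    x = (if EXP_all t then x else 0) + (if EXP_R0 t then x else 0) + (if EXP_R1 t then x else 0) +
      (if EXP_R2 t then x else 0) + (if EXP_R3 t then x else 0) + (if EXP_P 1 2 3 t then x else 0) +
      (if EXP_P 2 1 3 t then x else 0) + (if EXP_P 3 1 2 t then x else 0) := by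
  obtain ⟨h0, h1, h2, h3⟩ := EXP_al_iff t
  have h := EXP_abs (EXP_f t 0) (EXP_f t 1) (EXP_f t 2) (EXP_f t 3) x
  refine h.trans ?_
  refine congrArg₂ (· + ·) (congrArg₂ (· + ·) (congrArg₂ (· + ·) (congrArg₂ (· + ·) (congrArg₂ (· + ·)
    (congrArg₂ (· + ·) (congrArg₂ (· + ·) ?_ ?_) ?_) ?_) ?_) ?_) ?_) ?_
  · exact if_congr Iff.rfl rfl rfl
  · exact if_congr h0.symm rfl rfl
  · exact if_congr (and_congr h1.symm (not_congr h0.symm)) rfl rfl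
  · exact if_congr (and_congr h2.symm (and_congr (not_congr h0.symm) (not_congr h1.symm))) rfl rfl
  · exact if_congr (and_congr h3.symm (and_congr (not_congr h0.symm) (and_congr (not_congr h1.symm)
      (not_congr h2.symm)))) rfl rfl
  · exact if_congr Iff.rfl rfl rfl
  · exact if_congr Iff.rfl rfl rfl
  · exact if_congr Iff.rfl rfl rfl

/-! ### the class where all new points are in the same factor -/

theorem EXP_fix (F : Equiv.Perm (Fin (s + 1)) → K) :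
    (∑ σ : Equiv.Perm (Fin (s + 1)), if σ.symm 0 = 0 then F σ else 0) =
      ∑ e : Equiv.Perm (Fin s), F (Equiv.Perm.decomposeFin.symm (0, e)) := by
  rw [← Equiv.sum_comp Equiv.Perm.decomposeFin.symm, Fintype.sum_prod_type, sum_eq_single 0]
  · refine sum_congr rfl fun e _ => ?_
    rw [if_pos]
    rw [Equiv.symm_apply_eq, Equiv.Perm.decomposeFin_symm_apply_zero]
  · intro p _ hp
    apply sum_eq_zero
    intro e _
    rw [if_neg]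
    rw [Equiv.symm_apply_eq, Equiv.Perm.decomposeFin_symm_apply_zero]
    exact fun h => hp h.symm
  · intro h
    exact absurd (mem_univ _) h

theorem EXP_D_zero (e : Equiv.Perm (Fin s)) : Equiv.Perm.decomposeFin.symm (0, e) 0 = 0 :=
  Equiv.Perm.decomposeFin_symm_apply_zero _ _

theorem EXP_D_succ (e : Equiv.Perm (Fin s)) (i : Fin s) :
    Equiv.Perm.decomposeFin.symm (0, e) i.succ = (e i).succ := by
  rw [Equiv.Perm.decomposeFin_symm_apply_succ, Equiv.swap_self]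
  rfl

theorem EXP_D_sign (e : Equiv.Perm (Fin s)) :
    Equiv.Perm.sign (Equiv.Perm.decomposeFin.symm (0, e)) = Equiv.Perm.sign e := by
  rw [Equiv.Perm.decomposeFin.symm_sign, if_pos rfl, one_mul]

theorem EXP_sum_all (V : EXP_Idx s → K) :
    (∑ t, if EXP_all t then EXP_term V t else 0) = ∑ e₁ : Equiv.Perm (Fin s), ∑ e₂ : Equiv.Perm (Fin s),
      ∑ e₃ : Equiv.Perm (Fin s), (((Equiv.Perm.sign e₁ * Equiv.Perm.sign e₂ * Equiv.Perm.sign e₃ : ℤˣ) : ℤ) : K) *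
        (V (fun _ => 0) * ∏ i : Fin s, V ![i.succ, (e₁ i).succ, (e₂ i).succ, (e₃ i).succ]) := by
  have h1 : ∀ σ τ ρ : Equiv.Perm (Fin (s + 1)), (if EXP_all ((σ, τ, ρ) : EXP_Tr s) then
      EXP_term V (σ, τ, ρ) else 0) = if σ.symm 0 = 0 then (if τ.symm 0 = 0 then
      (if ρ.symm 0 = 0 then EXP_term V (σ, τ, ρ) else 0) else 0) else 0 := by
    intro σ τ ρ
    have : EXP_all ((σ, τ, ρ) : EXP_Tr s) ↔ (σ.symm 0 = 0 ∧ τ.symm 0 = 0 ∧ ρ.symm 0 = 0) := Iff.rfl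
    by_cases a1 : σ.symm 0 = 0
    · by_cases a2 : τ.symm 0 = 0
      · by_cases a3 : ρ.symm 0 = 0
        · rw [if_pos (this.2 ⟨a1, a2, a3⟩), if_pos a1, if_pos a2, if_pos a3]
        · rw [if_neg (fun h => a3 (this.1 h).2.2), if_pos a1, if_pos a2, if_neg a3]
      · rw [if_neg (fun h => a2 (this.1 h).2.1), if_pos a1, if_neg a2]
    · rw [if_neg (fun h => a1 (this.1 h).1), if_neg a1]
  rw [Fintype.sum_prod_type]
  simp only [Fintype.sum_prod_type, h1]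
  have h2 : ∀ σ : Equiv.Perm (Fin (s + 1)), (∑ τ : Equiv.Perm (Fin (s + 1)), ∑ ρ : Equiv.Perm (Fin (s + 1)),
      if σ.symm 0 = 0 then (if τ.symm 0 = 0 then
      (if ρ.symm 0 = 0 then EXP_term V (σ, τ, ρ) else 0) else 0) else 0) =
      if σ.symm 0 = 0 then ∑ e₂ : Equiv.Perm (Fin s), ∑ e₃ : Equiv.Perm (Fin s),
        EXP_term V (σ, Equiv.Perm.decomposeFin.symm (0, e₂), Equiv.Perm.decomposeFin.symm (0, e₃)) else 0 := by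
    intro σ
    by_cases a1 : σ.symm 0 = 0
    · simp only [if_pos a1]
      rw [← EXP_fix (fun τ => ∑ e₃ : Equiv.Perm (Fin s),
        EXP_term V (σ, τ, Equiv.Perm.decomposeFin.symm (0, e₃)))]
      refine sum_congr rfl fun τ _ => ?_
      by_cases a2 : τ.symm 0 = 0
      · simp only [if_pos a2]
        exact EXP_fix (fun ρ => EXP_term V (σ, τ, ρ))
      · simp only [if_neg a2, sum_const_zero]
    · simp only [if_neg a1, sum_const_zero]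
  simp only [h2]
  rw [EXP_fix (fun σ => ∑ e₂ : Equiv.Perm (Fin s), ∑ e₃ : Equiv.Perm (Fin s),
        EXP_term V (σ, Equiv.Perm.decomposeFin.symm (0, e₂), Equiv.Perm.decomposeFin.symm (0, e₃)))]
  refine sum_congr rfl fun e₁ _ => sum_congr rfl fun e₂ _ => sum_congr rfl fun e₃ _ => ?_
  unfold EXP_term EXP_sg
  rw [EXP_D_sign, EXP_D_sign, EXP_D_sign, Fin.prod_univ_succ]
  have h3 : EXP_c ((Equiv.Perm.decomposeFin.symm (0, e₁), Equiv.Perm.decomposeFin.symm (0, e₂),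
      Equiv.Perm.decomposeFin.symm (0, e₃)) : EXP_Tr s) 0 = fun _ => 0 := by
    funext κ
    unfold EXP_c EXP_pp
    fin_cases κ
    · rfl
    · exact EXP_D_zero e₁
    · exact EXP_D_zero e₂
    · exact EXP_D_zero e₃
  have h4 : ∀ i : Fin s, EXP_c ((Equiv.Perm.decomposeFin.symm (0, e₁), Equiv.Perm.decomposeFin.symm (0, e₂),
      Equiv.Perm.decomposeFin.symm (0, e₃)) : EXP_Tr s) i.succ =
      ![i.succ, (e₁ i).succ, (e₂ i).succ, (e₃ i).succ] := by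
    intro i
    funext κ
    unfold EXP_c EXP_pp
    fin_cases κ
    · rfl
    · exact EXP_D_succ e₁ i
    · exact EXP_D_succ e₂ i
    · exact EXP_D_succ e₃ i
  simp only [h3, h4]

/-! ### the values -/

variable {X Y Z W : Type}

/-- append a new point -/
def EXP_ap {α : Type} (x : α) (x₀ : Fin s → α) : Fin (s + 1) → α := Fin.cons x x₀

theorem EXP_ap_zero {α : Type} (x : α) (x₀ : Fin s → α) : EXP_ap x x₀ 0 = x := rfl

theorem EXP_ap_succ {α : Type} (x : α) (x₀ : Fin s → α) (i : Fin s) : EXP_ap x x₀ i.succ = x₀ i := rfl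

theorem EXP_ap_ne {α : Type} (x x' : α) (x₀ : Fin s → α) (i : Fin (s + 1)) (hi : i ≠ 0) :
    EXP_ap x x₀ i = EXP_ap x' x₀ i := by
  obtain ⟨j, rfl⟩ := Fin.exists_succ_eq.2 hi
  rw [EXP_ap_succ, EXP_ap_succ]

def EXP_V (T : X → Y → Z → W → K) (x₀ : Fin s → X) (y₀ : Fin s → Y) (z₀ : Fin s → Z) (w₀ : Fin s → W)
    (x : X) (y : Y) (z : Z) (w : W) (c : EXP_Idx s) : K :=
  T (EXP_ap x x₀ (c 0)) (EXP_ap y y₀ (c 1)) (EXP_ap z z₀ (c 2)) (EXP_ap w w₀ (c 3))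

theorem EXP_few_self {ι : Type} {m : ℕ} {f : ι → K} (h : Few m f) : Few (m ^ ((s + 1) ^ 4)) f :=
  ⟨h.1, h.2.trans (Nat.le_self_pow (by positivity) m)⟩

theorem EXP_few_sub {ι ι' : Type} {m : ℕ} {f : ι → K} {g : ι' → K} (h : Few m f)
    (hg : ∀ q, ∃ p, g q = f p) : Few m g := by
  have hs : Set.range g ⊆ Set.range f := by
    rintro _ ⟨q, rfl⟩
    obtain ⟨p, hp⟩ := hg q
    exact ⟨p, hp.symm⟩
  exact ⟨h.1.subset hs, (Set.ncard_le_ncard hs h.1).trans h.2⟩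

theorem EXP_few {ι ι' : Type} {m : ℕ} {f : ι → K} (h : Few m f) (v : ι' → EXP_Idx s → K)
    (hv : ∀ q c, ∃ p, v q c = f p) (G : (EXP_Idx s → K) → K) :
    Few (m ^ ((s + 1) ^ 4)) (fun q => G (v q)) := by
  classical
  obtain ⟨hfin, hcard⟩ := h
  let R : Finset K := hfin.toFinset
  have hR : R.card ≤ m := by
    rw [← Set.ncard_eq_toFinset_card _ hfin]
    exact hcard
  let S : Finset (EXP_Idx s → K) := Fintype.piFinset fun _ => R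
  have hS : S.card ≤ m ^ ((s + 1) ^ 4) := by
    have h1 : S.card = R.card ^ Fintype.card (EXP_Idx s) := by
      simp [S]
    have h2 : Fintype.card (EXP_Idx s) = (s + 1) ^ 4 := by simp [EXP_Idx]
    rw [h1, h2]
    exact Nat.pow_le_pow_left hR _
  have hsub : Set.range (fun q => G (v q)) ⊆ (S.image G : Set K) := by
    rintro _ ⟨q, rfl⟩
    rw [Finset.mem_coe, Finset.mem_image]
    refine ⟨v q, ?_, rfl⟩
    rw [Fintype.mem_piFinset]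
    intro c
    rw [Set.Finite.mem_toFinset]
    obtain ⟨p, hp⟩ := hv q c
    exact ⟨p, hp.symm⟩
  refine ⟨(Finset.finite_toSet _).subset hsub, ?_⟩
  refine (Set.ncard_le_ncard hsub (Finset.finite_toSet _)).trans ?_
  rw [Set.ncard_coe_finset]
  exact (Finset.card_image_le).trans hS

/-! ### classes: facts -/

theorem EXP_f0 (t : EXP_Tr s) : EXP_f t 0 = 0 := rfl

theorem EXP_P_ex (κ₁ κ₂ κ₃ : Fin 4) (h : (κ₁ = 1 ∧ κ₂ = 2 ∧ κ₃ = 3) ∨ (κ₁ = 2 ∧ κ₂ = 1 ∧ κ₃ = 3) ∨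
    (κ₁ = 3 ∧ κ₂ = 1 ∧ κ₃ = 2)) (t : EXP_Tr s) (ht : EXP_P κ₁ κ₂ κ₃ t) :
    EXP_f t κ₂ ≠ EXP_f t 0 ∧ (∃ p, EXP_c t (EXP_f t 0) = EXP_two κ₂ κ₃ p) ∧
      ∃ q, EXP_c t (EXP_f t κ₂) = EXP_two 0 κ₁ q := by
  obtain ⟨h1, h2, h3⟩ := ht
  have hne : κ₂ ≠ κ₃ ∧ (0 : Fin 4) ≠ κ₁ ∧ (∀ κ : Fin 4, κ ≠ κ₂ → κ ≠ κ₃ → κ = 0 ∨ κ = κ₁) ∧
      ∀ κ : Fin 4, κ ≠ 0 → κ ≠ κ₁ → κ = κ₂ ∨ κ = κ₃ := by
    rcases h with ⟨rfl, rfl, rfl⟩ | ⟨rfl, rfl, rfl⟩ | ⟨rfl, rfl, rfl⟩ <;> decide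
  refine ⟨h3, EXP_two_ex _ _ hne.1 _ ?_ ?_ ?_, EXP_two_ex _ _ hne.2.1 _ ?_ ?_ ?_⟩
  · exact fun h0 => h3 ((EXP_c_zero t _ _).1 h0).symm
  · exact fun h0 => h3 (h2.symm.trans ((EXP_c_zero t _ _).1 h0).symm)
  · intro κ k1 k2
    rw [EXP_c_zero]
    rcases hne.2.2.1 κ k1 k2 with rfl | rfl
    · rfl
    · exact h1.symm
  · exact fun h0 => h3 ((EXP_c_zero t _ _).1 h0)
  · exact fun h0 => h3 (((EXP_c_zero t _ _).1 h0).trans h1)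
  · intro κ k1 k2
    rw [EXP_c_zero]
    rcases hne.2.2.2 κ k1 k2 with rfl | rfl
    · rfl
    · exact h2.symm

theorem EXP_P_or (κ₁ κ₂ κ₃ : Fin 4) (h : (κ₁ = 1 ∧ κ₂ = 2 ∧ κ₃ = 3) ∨ (κ₁ = 2 ∧ κ₂ = 1 ∧ κ₃ = 3) ∨
    (κ₁ = 3 ∧ κ₂ = 1 ∧ κ₃ = 2)) (t : EXP_Tr s) (ht : EXP_P κ₁ κ₂ κ₃ t) (κ : Fin 4) :
    EXP_f t κ = EXP_f t 0 ∨ EXP_f t κ = EXP_f t κ₂ := by
  obtain ⟨h1, h2, h3⟩ := ht
  have hne : κ = 0 ∨ κ = κ₁ ∨ κ = κ₂ ∨ κ = κ₃ := by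
    rcases h with ⟨rfl, rfl, rfl⟩ | ⟨rfl, rfl, rfl⟩ | ⟨rfl, rfl, rfl⟩ <;> revert κ <;> decide
  rcases hne with rfl | rfl | rfl | rfl
  · exact Or.inl rfl
  · exact Or.inl h1
  · exact Or.inr rfl
  · exact Or.inr h2

theorem EXP_expand (V : EXP_Idx s → K) : (∑ t, EXP_term V t) =
    (∑ t, if EXP_all t then EXP_term V t else 0) +
    (∑ g : Fin 3 → Fin s, V (EXP_ins 0 g) * EXP_G 0 EXP_R0 g V) +
    (∑ g : Fin 3 → Fin s, V (EXP_ins 1 g) * EXP_G 1 EXP_R1 g V) +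
    (∑ g : Fin 3 → Fin s, V (EXP_ins 2 g) * EXP_G 2 EXP_R2 g V) +
    (∑ g : Fin 3 → Fin s, V (EXP_ins 3 g) * EXP_G 3 EXP_R3 g V) +
    (∑ p, ∑ q, EXP_co 2 (EXP_two 2 3) (EXP_two 0 1) (EXP_P 1 2 3) p q V *
      (V (EXP_two 2 3 p) * V (EXP_two 0 1 q))) +
    (∑ p, ∑ q, EXP_co 1 (EXP_two 1 3) (EXP_two 0 2) (EXP_P 2 1 3) p q V *
      (V (EXP_two 1 3 p) * V (EXP_two 0 2 q))) +
    (∑ p, ∑ q, EXP_co 1 (EXP_two 1 2) (EXP_two 0 3) (EXP_P 3 1 2) p q V *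
      (V (EXP_two 1 2 p) * V (EXP_two 0 3 q))) := by
  rw [← EXP_alone 0 EXP_R0 (fun t ht => ht) V, ← EXP_alone 1 EXP_R1 (fun t ht => ht.1) V,
    ← EXP_alone 2 EXP_R2 (fun t ht => ht.1) V, ← EXP_alone 3 EXP_R3 (fun t ht => ht.1) V,
    ← EXP_pair 2 (EXP_two 2 3) (EXP_two 0 1) (EXP_two_inj 2 3 (by decide)) (EXP_two_inj 0 1 (by decide))
      (EXP_P 1 2 3) (EXP_P_ex 1 2 3 (by decide)) V,
    ← EXP_pair 1 (EXP_two 1 3) (EXP_two 0 2) (EXP_two_inj 1 3 (by decide)) (EXP_two_inj 0 2 (by decide))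
      (EXP_P 2 1 3) (EXP_P_ex 2 1 3 (by decide)) V,
    ← EXP_pair 1 (EXP_two 1 2) (EXP_two 0 3) (EXP_two_inj 1 2 (by decide)) (EXP_two_inj 0 3 (by decide))
      (EXP_P 3 1 2) (EXP_P_ex 3 1 2 (by decide)) V]
  simp only [← sum_add_distrib]
  exact sum_congr rfl fun t _ => EXP_classes t _

theorem EXP_ins0 (g : Fin 3 → Fin s) : EXP_ins 0 g = ![0, (g 0).succ, (g 1).succ, (g 2).succ] := by
  funext κ; fin_cases κ <;> rfl

theorem EXP_ins1 (g : Fin 3 → Fin s) : EXP_ins 1 g = ![(g 0).succ, 0, (g 1).succ, (g 2).succ] := by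
  funext κ; fin_cases κ <;> rfl

theorem EXP_ins2 (g : Fin 3 → Fin s) : EXP_ins 2 g = ![(g 0).succ, (g 1).succ, 0, (g 2).succ] := by
  funext κ; fin_cases κ <;> rfl

theorem EXP_ins3 (g : Fin 3 → Fin s) : EXP_ins 3 g = ![(g 0).succ, (g 1).succ, (g 2).succ, 0] := by
  funext κ; fin_cases κ <;> rfl

theorem EXP_two23 (p : Fin 2 → Fin s) : EXP_two 2 3 p = ![0, 0, (p 0).succ, (p 1).succ] := by
  funext κ; fin_cases κ <;> rfl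

theorem EXP_two01 (p : Fin 2 → Fin s) : EXP_two 0 1 p = ![(p 0).succ, (p 1).succ, 0, 0] := by
  funext κ; fin_cases κ <;> rfl

theorem EXP_two13 (p : Fin 2 → Fin s) : EXP_two 1 3 p = ![0, (p 0).succ, 0, (p 1).succ] := by
  funext κ; fin_cases κ <;> rfl

theorem EXP_two02 (p : Fin 2 → Fin s) : EXP_two 0 2 p = ![(p 0).succ, 0, (p 1).succ, 0] := by
  funext κ; fin_cases κ <;> rfl

theorem EXP_two12 (p : Fin 2 → Fin s) : EXP_two 1 2 p = ![0, (p 0).succ, (p 1).succ, 0] := by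
  funext κ; fin_cases κ <;> rfl

theorem EXP_two03 (p : Fin 2 → Fin s) : EXP_two 0 3 p = ![(p 0).succ, 0, 0, (p 1).succ] := by
  funext κ; fin_cases κ <;> rfl

theorem EXP_V_term (T : X → Y → Z → W → K) (x₀ : Fin s → X) (y₀ : Fin s → Y) (z₀ : Fin s → Z) (w₀ : Fin s → W)
    (x : X) (y : Y) (z : Z) (w : W) :
    hyp (s + 1) T (EXP_ap x x₀) (EXP_ap y y₀) (EXP_ap z z₀) (EXP_ap w w₀) =
      ∑ t, EXP_term (EXP_V T x₀ y₀ z₀ w₀ x y z w) t := by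
  unfold hyp
  rw [Fintype.sum_prod_type]
  refine sum_congr rfl fun σ _ => ?_
  rw [Fintype.sum_prod_type]
  refine sum_congr rfl fun τ _ => sum_congr rfl fun ρ _ => ?_
  rfl

theorem EXP_V_all (T : X → Y → Z → W → K) (x₀ : Fin s → X) (y₀ : Fin s → Y) (z₀ : Fin s → Z) (w₀ : Fin s → W)
    (x : X) (y : Y) (z : Z) (w : W) :
    (∑ t, if EXP_all t then EXP_term (EXP_V T x₀ y₀ z₀ w₀ x y z w) t else 0) =
      hyp s T x₀ y₀ z₀ w₀ * T x y z w := by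
  rw [EXP_sum_all]
  unfold hyp
  simp only [sum_mul]
  refine sum_congr rfl fun σ _ => sum_congr rfl fun τ _ => sum_congr rfl fun ρ _ => ?_
  have h1 : EXP_V T x₀ y₀ z₀ w₀ x y z w (fun _ => 0) = T x y z w := rfl
  have h2 : ∀ i : Fin s, EXP_V T x₀ y₀ z₀ w₀ x y z w ![i.succ, (σ i).succ, (τ i).succ, (ρ i).succ] =
      T (x₀ i) (y₀ (σ i)) (z₀ (τ i)) (w₀ (ρ i)) := fun i => rfl
  simp only [h1, h2]
  ring

end EXPsec

theorem EXP_alg {K : Type} [Field K] (h t S : K) (hne : h ≠ 0) (hk : 0 = h * t + S) : t = -h⁻¹ * S := by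
  have : S = -(h * t) := by linear_combination -hk
  rw [this, neg_mul_neg, ← mul_assoc, inv_mul_cancel₀ hne, one_mul]

theorem EXP : EXP_stmt := by
  intro K X Y Z W _ T s x₀ y₀ z₀ w₀ hne h0
  let e3 : Fin (s ^ 3) ≃ (Fin 3 → Fin s) := finFunctionFinEquiv.symm
  let e2 : Fin (s ^ 2) ≃ (Fin 2 → Fin s) := finFunctionFinEquiv.symm
  set h := hyp s T x₀ y₀ z₀ w₀ with hh
  refine ⟨fun n x => T x (y₀ (e3 n 0)) (z₀ (e3 n 1)) (w₀ (e3 n 2)),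
    fun n y z w => -h⁻¹ * EXP_G 0 EXP_R0 (e3 n) (EXP_V T x₀ y₀ z₀ w₀ (x₀ (e3 n 0)) y z w),
    fun n y => T (x₀ (e3 n 0)) y (z₀ (e3 n 1)) (w₀ (e3 n 2)),
    fun n x z w => -h⁻¹ * EXP_G 1 EXP_R1 (e3 n) (EXP_V T x₀ y₀ z₀ w₀ x (y₀ (e3 n 0)) z w),
    fun n z => T (x₀ (e3 n 0)) (y₀ (e3 n 1)) z (w₀ (e3 n 2)),
    fun n x y w => -h⁻¹ * EXP_G 2 EXP_R2 (e3 n) (EXP_V T x₀ y₀ z₀ w₀ x y (z₀ (e3 n 0)) w),
    fun n w => T (x₀ (e3 n 0)) (y₀ (e3 n 1)) (z₀ (e3 n 2)) w,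
    fun n x y z => -h⁻¹ * EXP_G 3 EXP_R3 (e3 n) (EXP_V T x₀ y₀ z₀ w₀ x y z (w₀ (e3 n 0))),
    fun p q => -h⁻¹ * EXP_co 2 (EXP_two 2 3) (EXP_two 0 1) (EXP_P 1 2 3) (e2 p) (e2 q)
      (EXP_V T x₀ y₀ z₀ w₀ (x₀ (e2 p 0)) (y₀ (e2 p 0)) (z₀ (e2 p 0)) (w₀ (e2 p 0))),
    fun p q => -h⁻¹ * EXP_co 1 (EXP_two 1 3) (EXP_two 0 2) (EXP_P 2 1 3) (e2 p) (e2 q)
      (EXP_V T x₀ y₀ z₀ w₀ (x₀ (e2 p 0)) (y₀ (e2 p 0)) (z₀ (e2 p 0)) (w₀ (e2 p 0))),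
    fun p q => -h⁻¹ * EXP_co 1 (EXP_two 1 2) (EXP_two 0 3) (EXP_P 3 1 2) (e2 p) (e2 q)
      (EXP_V T x₀ y₀ z₀ w₀ (x₀ (e2 p 0)) (y₀ (e2 p 0)) (z₀ (e2 p 0)) (w₀ (e2 p 0))),
    fun p x y => T x y (z₀ (e2 p 0)) (w₀ (e2 p 1)),
    fun q z w => T (x₀ (e2 q 0)) (y₀ (e2 q 1)) z w,
    fun p x z => T x (y₀ (e2 p 0)) z (w₀ (e2 p 1)),
    fun q y w => T (x₀ (e2 q 0)) y (z₀ (e2 q 1)) w,
    fun p x w => T x (y₀ (e2 p 0)) (z₀ (e2 p 1)) w,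
    fun q y z => T (x₀ (e2 q 0)) y z (w₀ (e2 q 1)), ?_, ?_⟩
  · intro x y z w
    have key := EXP_V_term T x₀ y₀ z₀ w₀ x y z w
    rw [h0, EXP_expand, EXP_V_all, ← hh] at key
    have s0 : (∑ g : Fin 3 → Fin s, EXP_V T x₀ y₀ z₀ w₀ x y z w (EXP_ins 0 g) *
        EXP_G 0 EXP_R0 g (EXP_V T x₀ y₀ z₀ w₀ x y z w)) = ∑ n, T x (y₀ (e3 n 0)) (z₀ (e3 n 1)) (w₀ (e3 n 2)) *
        EXP_G 0 EXP_R0 (e3 n) (EXP_V T x₀ y₀ z₀ w₀ (x₀ (e3 n 0)) y z w) := by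
      rw [← Equiv.sum_comp e3]
      refine sum_congr rfl fun n _ => ?_
      rw [EXP_ins0, EXP_G_congr 0 EXP_R0 (e3 n) (EXP_V T x₀ y₀ z₀ w₀ x y z w)
        (EXP_V T x₀ y₀ z₀ w₀ (x₀ (e3 n 0)) y z w) (fun c hc => by
          unfold EXP_V; rw [EXP_ap_ne x (x₀ (e3 n 0)) x₀ _ hc])]
      rfl
    have s1 : (∑ g : Fin 3 → Fin s, EXP_V T x₀ y₀ z₀ w₀ x y z w (EXP_ins 1 g) *
        EXP_G 1 EXP_R1 g (EXP_V T x₀ y₀ z₀ w₀ x y z w)) = ∑ n, T (x₀ (e3 n 0)) y (z₀ (e3 n 1)) (w₀ (e3 n 2)) *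
        EXP_G 1 EXP_R1 (e3 n) (EXP_V T x₀ y₀ z₀ w₀ x (y₀ (e3 n 0)) z w) := by
      rw [← Equiv.sum_comp e3]
      refine sum_congr rfl fun n _ => ?_
      rw [EXP_ins1, EXP_G_congr 1 EXP_R1 (e3 n) (EXP_V T x₀ y₀ z₀ w₀ x y z w)
        (EXP_V T x₀ y₀ z₀ w₀ x (y₀ (e3 n 0)) z w) (fun c hc => by
          unfold EXP_V; rw [EXP_ap_ne y (y₀ (e3 n 0)) y₀ _ hc])]
      rfl
    have s2 : (∑ g : Fin 3 → Fin s, EXP_V T x₀ y₀ z₀ w₀ x y z w (EXP_ins 2 g) *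
        EXP_G 2 EXP_R2 g (EXP_V T x₀ y₀ z₀ w₀ x y z w)) = ∑ n, T (x₀ (e3 n 0)) (y₀ (e3 n 1)) z (w₀ (e3 n 2)) *
        EXP_G 2 EXP_R2 (e3 n) (EXP_V T x₀ y₀ z₀ w₀ x y (z₀ (e3 n 0)) w) := by
      rw [← Equiv.sum_comp e3]
      refine sum_congr rfl fun n _ => ?_
      rw [EXP_ins2, EXP_G_congr 2 EXP_R2 (e3 n) (EXP_V T x₀ y₀ z₀ w₀ x y z w)
        (EXP_V T x₀ y₀ z₀ w₀ x y (z₀ (e3 n 0)) w) (fun c hc => by
          unfold EXP_V; rw [EXP_ap_ne z (z₀ (e3 n 0)) z₀ _ hc])]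
      rfl
    have s3 : (∑ g : Fin 3 → Fin s, EXP_V T x₀ y₀ z₀ w₀ x y z w (EXP_ins 3 g) *
        EXP_G 3 EXP_R3 g (EXP_V T x₀ y₀ z₀ w₀ x y z w)) = ∑ n, T (x₀ (e3 n 0)) (y₀ (e3 n 1)) (z₀ (e3 n 2)) w *
        EXP_G 3 EXP_R3 (e3 n) (EXP_V T x₀ y₀ z₀ w₀ x y z (w₀ (e3 n 0))) := by
      rw [← Equiv.sum_comp e3]
      refine sum_congr rfl fun n _ => ?_
      rw [EXP_ins3, EXP_G_congr 3 EXP_R3 (e3 n) (EXP_V T x₀ y₀ z₀ w₀ x y z w)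
        (EXP_V T x₀ y₀ z₀ w₀ x y z (w₀ (e3 n 0))) (fun c hc => by
          unfold EXP_V; rw [EXP_ap_ne w (w₀ (e3 n 0)) w₀ _ hc])]
      rfl
    have hcv : ∀ (i : Fin s) (c : EXP_Idx s), (∀ κ, c κ ≠ 0) → EXP_V T x₀ y₀ z₀ w₀ x y z w c =
        EXP_V T x₀ y₀ z₀ w₀ (x₀ i) (y₀ i) (z₀ i) (w₀ i) c := by
      intro i c hc
      unfold EXP_V
      rw [EXP_ap_ne x (x₀ i) x₀ _ (hc 0), EXP_ap_ne y (y₀ i) y₀ _ (hc 1), EXP_ap_ne z (z₀ i) z₀ _ (hc 2),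
        EXP_ap_ne w (w₀ i) w₀ _ (hc 3)]
    have t1 : (∑ p, ∑ q, EXP_co 2 (EXP_two 2 3) (EXP_two 0 1) (EXP_P 1 2 3) p q
        (EXP_V T x₀ y₀ z₀ w₀ x y z w) * (EXP_V T x₀ y₀ z₀ w₀ x y z w (EXP_two 2 3 p) *
          EXP_V T x₀ y₀ z₀ w₀ x y z w (EXP_two 0 1 q))) = ∑ p, ∑ q,
        EXP_co 2 (EXP_two 2 3) (EXP_two 0 1) (EXP_P 1 2 3) (e2 p) (e2 q)
        (EXP_V T x₀ y₀ z₀ w₀ (x₀ (e2 p 0)) (y₀ (e2 p 0)) (z₀ (e2 p 0)) (w₀ (e2 p 0))) *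
        (T x y (z₀ (e2 p 0)) (w₀ (e2 p 1)) * T (x₀ (e2 q 0)) (y₀ (e2 q 1)) z w) := by
      rw [← Equiv.sum_comp e2]
      refine sum_congr rfl fun p _ => ?_
      rw [← Equiv.sum_comp e2]
      refine sum_congr rfl fun q _ => ?_
      rw [EXP_co_congr 2 (EXP_two 2 3) (EXP_two 0 1) (EXP_P 1 2 3) (EXP_P_or 1 2 3 (by decide)) (e2 p) (e2 q)
        _ _ (hcv (e2 p 0)), EXP_two23, EXP_two01]
      rfl
    have t2 : (∑ p, ∑ q, EXP_co 1 (EXP_two 1 3) (EXP_two 0 2) (EXP_P 2 1 3) p q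
        (EXP_V T x₀ y₀ z₀ w₀ x y z w) * (EXP_V T x₀ y₀ z₀ w₀ x y z w (EXP_two 1 3 p) *
          EXP_V T x₀ y₀ z₀ w₀ x y z w (EXP_two 0 2 q))) = ∑ p, ∑ q,
        EXP_co 1 (EXP_two 1 3) (EXP_two 0 2) (EXP_P 2 1 3) (e2 p) (e2 q)
        (EXP_V T x₀ y₀ z₀ w₀ (x₀ (e2 p 0)) (y₀ (e2 p 0)) (z₀ (e2 p 0)) (w₀ (e2 p 0))) *
        (T x (y₀ (e2 p 0)) z (w₀ (e2 p 1)) * T (x₀ (e2 q 0)) y (z₀ (e2 q 1)) w) := by
      rw [← Equiv.sum_comp e2]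
      refine sum_congr rfl fun p _ => ?_
      rw [← Equiv.sum_comp e2]
      refine sum_congr rfl fun q _ => ?_
      rw [EXP_co_congr 1 (EXP_two 1 3) (EXP_two 0 2) (EXP_P 2 1 3) (EXP_P_or 2 1 3 (by decide)) (e2 p) (e2 q)
        _ _ (hcv (e2 p 0)), EXP_two13, EXP_two02]
      rfl
    have t3 : (∑ p, ∑ q, EXP_co 1 (EXP_two 1 2) (EXP_two 0 3) (EXP_P 3 1 2) p q
        (EXP_V T x₀ y₀ z₀ w₀ x y z w) * (EXP_V T x₀ y₀ z₀ w₀ x y z w (EXP_two 1 2 p) *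
          EXP_V T x₀ y₀ z₀ w₀ x y z w (EXP_two 0 3 q))) = ∑ p, ∑ q,
        EXP_co 1 (EXP_two 1 2) (EXP_two 0 3) (EXP_P 3 1 2) (e2 p) (e2 q)
        (EXP_V T x₀ y₀ z₀ w₀ (x₀ (e2 p 0)) (y₀ (e2 p 0)) (z₀ (e2 p 0)) (w₀ (e2 p 0))) *
        (T x (y₀ (e2 p 0)) (z₀ (e2 p 1)) w * T (x₀ (e2 q 0)) y z (w₀ (e2 q 1))) := by
      rw [← Equiv.sum_comp e2]
      refine sum_congr rfl fun p _ => ?_
      rw [← Equiv.sum_comp e2]
      refine sum_congr rfl fun q _ => ?_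
      rw [EXP_co_congr 1 (EXP_two 1 2) (EXP_two 0 3) (EXP_P 3 1 2) (EXP_P_or 3 1 2 (by decide)) (e2 p) (e2 q)
        _ _ (hcv (e2 p 0)), EXP_two12, EXP_two03]
      rfl
    rw [s0, s1, s2, s3, t1, t2, t3] at key
    have hT : T x y z w = -h⁻¹ * ((∑ n, T x (y₀ (e3 n 0)) (z₀ (e3 n 1)) (w₀ (e3 n 2)) *
        EXP_G 0 EXP_R0 (e3 n) (EXP_V T x₀ y₀ z₀ w₀ (x₀ (e3 n 0)) y z w)) +
        (∑ n, T (x₀ (e3 n 0)) y (z₀ (e3 n 1)) (w₀ (e3 n 2)) *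
        EXP_G 1 EXP_R1 (e3 n) (EXP_V T x₀ y₀ z₀ w₀ x (y₀ (e3 n 0)) z w)) +
        (∑ n, T (x₀ (e3 n 0)) (y₀ (e3 n 1)) z (w₀ (e3 n 2)) *
        EXP_G 2 EXP_R2 (e3 n) (EXP_V T x₀ y₀ z₀ w₀ x y (z₀ (e3 n 0)) w)) +
        (∑ n, T (x₀ (e3 n 0)) (y₀ (e3 n 1)) (z₀ (e3 n 2)) w *
        EXP_G 3 EXP_R3 (e3 n) (EXP_V T x₀ y₀ z₀ w₀ x y z (w₀ (e3 n 0)))) +
        (∑ p, ∑ q, EXP_co 2 (EXP_two 2 3) (EXP_two 0 1) (EXP_P 1 2 3) (e2 p) (e2 q)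
        (EXP_V T x₀ y₀ z₀ w₀ (x₀ (e2 p 0)) (y₀ (e2 p 0)) (z₀ (e2 p 0)) (w₀ (e2 p 0))) *
        (T x y (z₀ (e2 p 0)) (w₀ (e2 p 1)) * T (x₀ (e2 q 0)) (y₀ (e2 q 1)) z w)) +
        (∑ p, ∑ q, EXP_co 1 (EXP_two 1 3) (EXP_two 0 2) (EXP_P 2 1 3) (e2 p) (e2 q)
        (EXP_V T x₀ y₀ z₀ w₀ (x₀ (e2 p 0)) (y₀ (e2 p 0)) (z₀ (e2 p 0)) (w₀ (e2 p 0))) *
        (T x (y₀ (e2 p 0)) z (w₀ (e2 p 1)) * T (x₀ (e2 q 0)) y (z₀ (e2 q 1)) w)) +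
        (∑ p, ∑ q, EXP_co 1 (EXP_two 1 2) (EXP_two 0 3) (EXP_P 3 1 2) (e2 p) (e2 q)
        (EXP_V T x₀ y₀ z₀ w₀ (x₀ (e2 p 0)) (y₀ (e2 p 0)) (z₀ (e2 p 0)) (w₀ (e2 p 0))) *
        (T x (y₀ (e2 p 0)) (z₀ (e2 p 1)) w * T (x₀ (e2 q 0)) y z (w₀ (e2 q 1))))) := by
      refine EXP_alg h _ _ hne ?_
      linear_combination key
    refine hT.trans ?_
    unfold slSum pr
    simp only [mul_add, mul_sum]
    refine congrArg₂ (· + ·) (congrArg₂ (· + ·) (congrArg₂ (· + ·) (congrArg₂ (· + ·) (congrArg₂ (· + ·)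
      (congrArg₂ (· + ·) ?_ ?_) ?_) ?_) ?_) ?_) ?_
    · exact sum_congr rfl fun n _ => by ring
    · exact sum_congr rfl fun n _ => by ring
    · exact sum_congr rfl fun n _ => by ring
    · exact sum_congr rfl fun n _ => by ring
    · exact sum_congr rfl fun p _ => sum_congr rfl fun q _ => by ring
    · exact sum_congr rfl fun p _ => sum_congr rfl fun q _ => by ring
    · exact sum_congr rfl fun p _ => sum_congr rfl fun q _ => by ring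
  · intro m hT
    have hv : ∀ (x : X) (y : Y) (z : Z) (w : W) (c : EXP_Idx s), ∃ p : X × Y × Z × W,
        EXP_V T x₀ y₀ z₀ w₀ x y z w c = T p.1 p.2.1 p.2.2.1 p.2.2.2 :=
      fun x y z w c => ⟨(EXP_ap x x₀ (c 0), EXP_ap y y₀ (c 1), EXP_ap z z₀ (c 2), EXP_ap w w₀ (c 3)), rfl⟩
    refine ⟨fun n => ?_, fun n => ?_, fun n => ?_, fun n => ?_, fun n => ?_, fun n => ?_, fun n => ?_,
      fun n => ?_, fun p => ?_, fun p => ?_, fun p => ?_, fun p => ?_, fun p => ?_, fun p => ?_⟩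
    · exact EXP_few_self (EXP_few_sub hT fun x => ⟨(x, _, _, _), rfl⟩)
    · exact EXP_few hT (fun q : Y × Z × W => EXP_V T x₀ y₀ z₀ w₀ (x₀ (e3 n 0)) q.1 q.2.1 q.2.2)
        (fun q c => hv _ _ _ _ c) (fun v => -h⁻¹ * EXP_G 0 EXP_R0 (e3 n) v)
    · exact EXP_few_self (EXP_few_sub hT fun y => ⟨(_, y, _, _), rfl⟩)
    · exact EXP_few hT (fun q : X × Z × W => EXP_V T x₀ y₀ z₀ w₀ q.1 (y₀ (e3 n 0)) q.2.1 q.2.2)
        (fun q c => hv _ _ _ _ c) (fun v => -h⁻¹ * EXP_G 1 EXP_R1 (e3 n) v)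
    · exact EXP_few_self (EXP_few_sub hT fun z => ⟨(_, _, z, _), rfl⟩)
    · exact EXP_few hT (fun q : X × Y × W => EXP_V T x₀ y₀ z₀ w₀ q.1 q.2.1 (z₀ (e3 n 0)) q.2.2)
        (fun q c => hv _ _ _ _ c) (fun v => -h⁻¹ * EXP_G 2 EXP_R2 (e3 n) v)
    · exact EXP_few_self (EXP_few_sub hT fun w => ⟨(_, _, _, w), rfl⟩)
    · exact EXP_few hT (fun q : X × Y × Z => EXP_V T x₀ y₀ z₀ w₀ q.1 q.2.1 q.2.2 (w₀ (e3 n 0)))
        (fun q c => hv _ _ _ _ c) (fun v => -h⁻¹ * EXP_G 3 EXP_R3 (e3 n) v)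
    · exact EXP_few_self (EXP_few_sub hT fun q => ⟨(q.1, q.2, _, _), rfl⟩)
    · exact EXP_few_self (EXP_few_sub hT fun q => ⟨(_, _, q.1, q.2), rfl⟩)
    · exact EXP_few_self (EXP_few_sub hT fun q => ⟨(q.1, _, q.2, _), rfl⟩)
    · exact EXP_few_self (EXP_few_sub hT fun q => ⟨(_, q.1, _, q.2), rfl⟩)
    · exact EXP_few_self (EXP_few_sub hT fun q => ⟨(q.1, _, _, q.2), rfl⟩)
    · exact EXP_few_self (EXP_few_sub hT fun q => ⟨(_, q.1, q.2, _), rfl⟩)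

end Pool.Agent.helper35.MR
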